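import Pool.Agent.Y583.MG4

set_option autoImplicit false

/-!
# Categoricity implies amalgamation for abstract elementary classes of modules

`R` is a countable ring and `K` is an abstract elementary class with Löwenheim-Skolem number `ℵ₀`
whose members are `R`-modules (in the usual language `Lmod R` of `R`-modules). The strong
submodules are arbitrary.

`hanf ℵ₀ = ℶ_((2 ^ ℵ₀)⁺)`.
-/

namespace Pool.Agent.Results.MP_23d7af_lc.ModulesAmalgamation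

open Cardinal FirstOrder Pool.Agent.TH767.DS
open Pool.Agent.H288R4.LS (hanf)
open Pool.Agent.Y583.MC (embLin KKof KKof_emb main_over_AEC amalgam)

/-- `AP_χ`, with disjoint amalgams: two strong extensions `M₁`, `M₂` of `M₀`, all three of
cardinality `χ`, have strong embeddings in some member `P` that agree on `M₀`, and the images of
`M₁` and `M₂` meet only in the image of `M₀`. -/
def DisjointAP {L : FirstOrder.Language.{0, 0}} (K : AEC L) (χ : Cardinal.{0}) : Prop :=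
  ∀ (M₀ M₁ M₂ : Type) [L.Structure M₀] [L.Structure M₁] [L.Structure M₂]
    (i₁ : M₀ ↪[L] M₁) (i₂ : M₀ ↪[L] M₂), #M₀ = χ → #M₁ = χ → #M₂ = χ → K.emb i₁ → K.emb i₂ →
    ∃ (P : Type) (_ : L.Structure P) (f₁ : M₁ ↪[L] P) (f₂ : M₂ ↪[L] P),
      K.emb f₁ ∧ K.emb f₂ ∧ (∀ x, f₁ (i₁ x) = f₂ (i₂ x)) ∧
      ∀ y z, f₁ y = f₂ z → ∃ x, i₁ x = y ∧ i₂ x = z

/-- Let `R` be a countable ring and `K` an abstract elementary class of `R`-modules with
`LS(K) = ℵ₀`. If `K` is categorical in one cardinal `μ ≥ H₁`, then `K` has `AP_χ`, with disjoint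
amalgams, for every `χ ≥ H₁`. -/
theorem result (R : Type) [Ring R] [Countable R] (K : AEC (Lmod R)) (hLS : K.LSat ℵ₀)
    (hmod : ∀ (N : Type) (S : (Lmod R).Structure N), @AEC.mem _ K N S → IsMod R N S)
    (μ : Cardinal.{0}) (hμ : hanf ℵ₀ ≤ μ) (hcat : K.Categorical μ)
    (χ : Cardinal.{0}) (hχ : hanf ℵ₀ ≤ χ) : DisjointAP K χ := by
  obtain ⟨huniq, D, i1, i2, -, hover⟩ := main_over_AEC K hLS hmod μ hμ hcat
  intro M₀ M₁ M₂ S₀ S₁ S₂ f₁ f₂ h₀ h₁ h₂ hf₁ hf₂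
  have m₀ := (K.emb_mem _ hf₁).1
  have m₁ := (K.emb_mem _ hf₁).2
  have m₂ := (K.emb_mem _ hf₂).2
  obtain ⟨a₀, b₀, rfl⟩ := hmod M₀ S₀ m₀
  obtain ⟨a₁, b₁, rfl⟩ := hmod M₁ S₁ m₁
  obtain ⟨a₂, b₂, rfl⟩ := hmod M₂ S₂ m₂
  obtain ⟨P, p1, p2, g₁, g₂, ⟨hg1, hg2⟩, ⟨hg3, hg4⟩, hg5, hg6⟩ := amalgam (huniq χ hχ)
    (fun M N _ _ _ _ f hf hM hN => by
      obtain ⟨ι, k, hk⟩ := hover M N f hf (hM ▸ hχ) (hM.trans hN.symm)
      exact ⟨LinearMap.fst R _ _ ∘ₗ (k : N →ₗ[R] (M × (ι →₀ D))), fun x => by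
        show (k (f x)).1 = x
        rw [hk]⟩) h₀ h₁ h₂ (embLin f₁) (embLin f₂) (KKof_emb K hLS f₁ hf₁) (KKof_emb K hLS f₂ hf₂)
  exact ⟨P, modStr R P, _, _, hg2, hg4, hg5, hg6⟩

end Pool.Agent.Results.MP_23d7af_lc.ModulesAmalgamation
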